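import Mathlib

/-!
Core algebra for the failure of the containment `I^(m) ≤ 𝔪^(rn-r) I^r`.
-/

namespace Pool.Agent.Lib.MP_48a29b_ag

open Finset Ideal

/-- The key identity: modulo `(F, G)^(n+1)`, with `F = y z - x^(n+2)` and `G = y^(n+2) - x^(n+3)`,
the element `(y z)^(n+2)` is a multiple of `x y^(n+2)`. -/
theorem exists_key {R : Type*} [CommRing R] (n : ℕ) (x y z : R) :
    ∃ w : R, y ^ (n + 2) * (z ^ (n + 2) - x * w) ∈
      (Ideal.span {y * z - x ^ (n + 2), y ^ (n + 2) - x ^ (n + 3)}) ^ (n + 1) := by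
  obtain ⟨F, hF⟩ : ∃ F, F = y * z - x ^ (n + 2) := ⟨_, rfl⟩
  obtain ⟨G, hG⟩ : ∃ G, G = y ^ (n + 2) - x ^ (n + 3) := ⟨_, rfl⟩
  rw [← hF, ← hG]
  have hq : ∀ k : ℕ, ∃ q, (x ^ (n + 3)) ^ k - (-G) ^ k = y ^ (n + 2) * q := by
    intro k
    have h := sub_dvd_pow_sub_pow (x ^ (n + 3)) (-G) k
    have e : x ^ (n + 3) - (-G) = y ^ (n + 2) := by rw [hG]; ring
    rw [e] at h
    exact h
  choose q hq using hq
  refine ⟨∑ i ∈ Finset.range (n + 1), ((n + 2).choose i : R) * x ^ i * F ^ i * q (n + 1 - i), ?_⟩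
  have hz : y ^ (n + 2) * z ^ (n + 2) =
      ∑ i ∈ Finset.range (n + 3), F ^ i * (x ^ (n + 2)) ^ (n + 2 - i) * ((n + 2).choose i : R) := by
    rw [← mul_pow, ← add_pow, hF]; congr 1; ring
  have hFm : F ∈ Ideal.span {F, G} := Ideal.subset_span (by simp)
  have hGm : G ∈ Ideal.span {F, G} := Ideal.subset_span (by simp)
  have key : y ^ (n + 2) * (z ^ (n + 2) -
      x * ∑ i ∈ Finset.range (n + 1), ((n + 2).choose i : R) * x ^ i * F ^ i * q (n + 1 - i)) =
      (∑ i ∈ Finset.range (n + 1),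
        ((n + 2).choose i : R) * x ^ (i + 1) * (F ^ i * (-G) ^ (n + 1 - i))) +
      F ^ (n + 1) * (x ^ (n + 2) * (n + 2 : R)) + F ^ (n + 1) * F := by
    rw [mul_sub, hz, Finset.sum_range_succ, Finset.sum_range_succ]
    have e1 : (n + 2).choose (n + 1) = n + 2 := by
      rw [show n + 2 = (n + 1) + 1 from rfl, Nat.choose_succ_self_right]
    have e2 : n + 2 - (n + 1) = 1 := by omega
    rw [e1, e2]
    simp only [Nat.choose_self, Nat.sub_self, pow_zero, pow_one, mul_one, Nat.cast_one]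
    rw [Finset.mul_sum, Finset.mul_sum]
    have hsum : ∑ i ∈ Finset.range (n + 1),
          F ^ i * (x ^ (n + 2)) ^ (n + 2 - i) * ((n + 2).choose i : R) =
        ∑ i ∈ Finset.range (n + 1),
          (y ^ (n + 2) * (x * (((n + 2).choose i : R) * x ^ i * F ^ i * q (n + 1 - i))) +
          ((n + 2).choose i : R) * x ^ (i + 1) * (F ^ i * (-G) ^ (n + 1 - i))) := by
      apply Finset.sum_congr rfl
      intro i hi
      rw [Finset.mem_range] at hi
      obtain ⟨k, hk⟩ : ∃ k, n = i + k := ⟨n - i, by omega⟩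
      have e3 : n + 1 - i = k + 1 := by omega
      have e4 : n + 2 - i = k + 2 := by omega
      rw [e3, e4]
      have e5 : (x ^ (n + 2)) ^ (k + 2) = x ^ (i + 1) * (x ^ (n + 3)) ^ (k + 1) := by
        rw [← pow_mul, ← pow_mul, ← pow_add]
        congr 1
        rw [hk]; ring
      rw [e5]
      have e6 := hq (k + 1)
      have e7 : (x ^ (n + 3)) ^ (k + 1) = y ^ (n + 2) * q (k + 1) + (-G) ^ (k + 1) := by
        rw [← e6]; ring
      rw [e7]
      ring
    rw [hsum, Finset.sum_add_distrib]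
    push_cast
    ring
  rw [key]
  refine Ideal.add_mem _ (Ideal.add_mem _ (Ideal.sum_mem _ ?_) ?_) ?_
  · intro i hi
    rw [Finset.mem_range] at hi
    refine Ideal.mul_mem_left _ _ ?_
    have e8 : n + 1 = i + (n + 1 - i) := by omega
    rw [show (Ideal.span {F, G}) ^ (n + 1) = (Ideal.span {F, G}) ^ i * (Ideal.span {F, G}) ^ (n + 1 - i)
      from by rw [← pow_add, ← e8]]
    exact Ideal.mul_mem_mul (Ideal.pow_mem_pow hFm _)
      (Ideal.pow_mem_pow ((Ideal.neg_mem_iff _).2 hGm) _)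
  · exact Ideal.mul_mem_right _ _ (Ideal.pow_mem_pow hFm _)
  · exact Ideal.mul_mem_right _ _ (Ideal.pow_mem_pow hFm _)

end Pool.Agent.Lib.MP_48a29b_ag
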