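import Mathlib

/-!
Definitions for the containment question on symbolic powers.
-/

namespace Pool.Agent.Lib.MP_48a29b_ag

open IsLocalRing

universe u

/-- The `m`-th symbolic power `I^(m) = ⋂_{P ∈ Min(I)} (I^m R_P ∩ R)` of an ideal `I`. -/
noncomputable def symbolicPower {R : Type u} [CommRing R] (I : Ideal R) (m : ℕ) : Ideal R :=
  ⨅ P : {P : Ideal R // P ∈ I.minimalPrimes},
    have : P.1.IsPrime := P.2.1.1
    ((I ^ m).map (algebraMap R (Localization.AtPrime P.1))).comap
      (algebraMap R (Localization.AtPrime P.1))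

/-- The containment of the question for a local ring `R` with maximal ideal `𝔪` and the number `n`:
`I^(m) ⊆ 𝔪^(rn-r) I^r` for all proper radical ideals `I` and positive integers `r`, `m` with
`m ≥ rn`. -/
def Containment (R : Type u) [CommRing R] [IsLocalRing R] (n : ℕ) : Prop :=
  ∀ I : Ideal R, I.IsRadical → I ≠ ⊤ → ∀ r m : ℕ, 1 ≤ r → 1 ≤ m → r * n ≤ m →
    symbolicPower I m ≤ maximalIdeal R ^ (r * n - r) * I ^ r

end Pool.Agent.Lib.MP_48a29b_ag
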