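import Mathlib

/-!
A prime of `R[X]` defining a monomial curve, for an arbitrary regular system of parameters.
-/

namespace Pool.Agent.Lib.MP_48a29b_ag

open Ideal Polynomial IsLocalRing

universe u

theorem exists_prime {R : Type u} [CommRing R] [IsLocalRing R] [IsNoetherianRing R] (n : ℕ)
    (v : Fin n → R) (hv : Ideal.span (Set.range v) = maximalIdeal R)
    (hn : (n : ℕ∞) ≤ (maximalIdeal R).height) (p : Fin n → R[X]) (hp : ∀ i, X ∣ p i) :
    ∃ (E : Type u) (_ : CommRing E) (_ : IsDomain E) (ψ : R[X] →+* E),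
      ψ X ≠ 0 ∧ (∀ i, ψ (C (v i)) = ψ (p i)) ∧ ∀ r : R, ψ X ∣ ψ (C r) → r ∈ maximalIdeal R := by
  classical
  let M : Ideal R[X] := (maximalIdeal R).comap (Polynomial.constantCoeff)
  have hMmem : ∀ f : R[X], f ∈ M ↔ f.coeff 0 ∈ maximalIdeal R := by
    intro f
    rw [Ideal.mem_comap, Polynomial.constantCoeff_apply]
  have hMp : M.IsPrime := Ideal.IsPrime.comap _
  have hqp : ((maximalIdeal R).map (C : R →+* R[X])).IsPrime :=
    Ideal.isPrime_map_C_of_isPrime
  have hXM : (X : R[X]) ∈ M := by rw [hMmem]; simp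
  have hlt : (maximalIdeal R).map (C : R →+* R[X]) < M := by
    refine lt_of_le_of_ne ?_ ?_
    · intro f hf
      rw [hMmem]
      exact Ideal.mem_map_C_iff.1 hf 0
    · intro h
      rw [← h, Ideal.mem_map_C_iff] at hXM
      have := hXM 1
      rw [Polynomial.coeff_X_one] at this
      exact (Ideal.ne_top_iff_one _).1 Ideal.IsPrime.ne_top' this
  have hMh : (n : ℕ∞) + 1 ≤ M.height := by
    refine le_trans ?_ (Ideal.height_add_one_le_of_lt_of_isPrime hlt)
    rw [Polynomial.height_map_C]
    exact add_le_add_left hn 1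
  let 𝔞 : Ideal R[X] := Ideal.span ((Finset.univ.image fun i ↦ C (v i) - p i : Finset R[X]) : Set R[X])
  have h𝔞 : 𝔞 ≤ M := by
    rw [Ideal.span_le]
    intro f hf
    simp only [Finset.coe_image, Finset.coe_univ, Set.image_univ, Set.mem_range] at hf
    obtain ⟨i, rfl⟩ := hf
    refine M.sub_mem ?_ (Ideal.mem_of_dvd _ (hp i) hXM)
    rw [hMmem, coeff_C_zero, ← hv]
    exact Ideal.subset_span ⟨i, rfl⟩
  obtain ⟨Q, hQ, hQM⟩ := Ideal.exists_minimalPrimes_le h𝔞
  have hQp : Q.IsPrime := hQ.1.1
  have hQ𝔞 : 𝔞 ≤ Q := hQ.1.2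
  have hgen : ∀ i, C (v i) - p i ∈ Q := by
    intro i
    refine hQ𝔞 (Ideal.subset_span ?_)
    simp
  have hQh : Q.height ≤ n := by
    refine (Ideal.height_le_card_of_mem_minimalPrimes_span_finset hQ).trans ?_
    have := Finset.card_image_le (s := (Finset.univ : Finset (Fin n))) (f := fun i ↦ C (v i) - p i)
    rw [Finset.card_univ, Fintype.card_fin] at this
    exact_mod_cast this
  have hXQ : (X : R[X]) ∉ Q := by
    intro hX
    have hMQ : M ≤ Q := by
      intro f hf
      rw [hMmem, ← hv] at hf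
      have h1 : f = C (f.coeff 0) + X * f.divX := by
        rw [add_comm, mul_comm]; exact (Polynomial.divX_mul_X_add f).symm
      rw [h1]
      refine Q.add_mem ?_ (Q.mul_mem_right _ hX)
      have h2 : Ideal.span (Set.range v) ≤ Q.comap C := by
        rw [Ideal.span_le]
        rintro _ ⟨i, rfl⟩
        have h3 := Q.add_mem (hgen i) (Ideal.mem_of_dvd _ (hp i) hX)
        rw [sub_add_cancel] at h3
        exact h3
      exact h2 hf
    have h4 : M.height ≤ Q.height := Ideal.height_mono hMQ
    have h5 : (n : ℕ∞) + 1 ≤ n := hMh.trans (h4.trans hQh)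
    exact absurd h5 (by
      intro h6
      have : n + 1 ≤ n := by exact_mod_cast h6
      omega)
  refine ⟨R[X] ⧸ Q, inferInstance, Ideal.Quotient.isDomain Q, Ideal.Quotient.mk Q, ?_, ?_, ?_⟩
  · rwa [Ne, Ideal.Quotient.eq_zero_iff_mem]
  · intro i
    exact Ideal.Quotient.eq.2 (hgen i)
  · intro r hr
    by_contra hcon
    have hru : IsUnit r := by
      by_contra hnu
      exact hcon ((IsLocalRing.mem_maximalIdeal r).2 hnu)
    have hXu : IsUnit (Ideal.Quotient.mk Q X) :=
      isUnit_of_dvd_unit hr ((hru.map C).map (Ideal.Quotient.mk Q))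
    have hX2 : IsUnit (Ideal.Quotient.mk M X) := by
      have := hXu.map (Ideal.Quotient.factor hQM)
      rwa [Ideal.Quotient.factor_mk] at this
    rw [Ideal.Quotient.eq_zero_iff_mem.2 hXM] at hX2
    have : Nontrivial (R[X] ⧸ M) := Ideal.Quotient.nontrivial_iff.2 hMp.ne_top
    exact not_isUnit_zero hX2

/-- In a local ring with maximal ideal of height at least `n`, generated by `z` and `n - 1` other
elements, no power of `z` lies in the ideal of the other elements. -/
theorem pow_not_mem {R : Type u} [CommRing R] [IsLocalRing R] [IsNoetherianRing R] (n : ℕ)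
    (hn : (n : ℕ∞) ≤ (maximalIdeal R).height) (s : Finset R) (hs : s.card < n) (z : R)
    (hv : Ideal.span (insert z (s : Set R)) = maximalIdeal R) (N : ℕ) :
    z ^ N ∉ Ideal.span (s : Set R) := by
  intro hz
  have hle : Ideal.span (s : Set R) ≤ maximalIdeal R := by
    rw [← hv]
    exact Ideal.span_mono (Set.subset_insert _ _)
  obtain ⟨Q, hQ, hQM⟩ := Ideal.exists_minimalPrimes_le hle
  have hQp : Q.IsPrime := hQ.1.1
  have hzQ : z ∈ Q := hQp.mem_of_pow_mem N (hQ.1.2 hz)
  have hMQ : maximalIdeal R ≤ Q := by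
    rw [← hv, Ideal.span_le]
    intro t ht
    rcases ht with rfl | ht
    · exact hzQ
    · exact hQ.1.2 (Ideal.subset_span ht)
  have h1 : Q.height ≤ s.card := Ideal.height_le_card_of_mem_minimalPrimes_span_finset hQ
  have h2 : (maximalIdeal R).height ≤ Q.height := Ideal.height_mono hMQ
  have h3 : (n : ℕ∞) ≤ s.card := hn.trans (h2.trans h1)
  have : n ≤ s.card := by exact_mod_cast h3
  omega

end Pool.Agent.Lib.MP_48a29b_ag
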