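import Mathlib

/-!
The order argument on the monomial curve with exponents `n+2`, `n+3`, `n^2+3n+1`.
-/

namespace Pool.Agent.Lib.MP_48a29b_ag

open Ideal

theorem rep_unique (n i j i' j' k : ℕ) (hk : k ≤ n ^ 2 + 3 * n + 1)
    (h : (n + 2) * i + (n + 3) * j = k) (h' : (n + 2) * i' + (n + 3) * j' = k) :
    i = i' ∧ j = j' := by
  have hj : j < n + 2 := by
    by_contra hcon
    push Not at hcon
    nlinarith
  have hj' : j' < n + 2 := by
    by_contra hcon
    push Not at hcon
    nlinarith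
  have e : (n + 2) * (i + j) + j = (n + 2) * (i' + j') + j' := by nlinarith
  have e1 : ((n + 2) * (i + j) + j) % (n + 2) = j := by
    rw [Nat.mul_add_mod, Nat.mod_eq_of_lt hj]
  have e2 : ((n + 2) * (i' + j') + j') % (n + 2) = j' := by
    rw [Nat.mul_add_mod, Nat.mod_eq_of_lt hj']
  have hjj : j = j' := by rw [← e1, ← e2, e]
  subst hjj
  refine ⟨?_, rfl⟩
  have : (n + 2) * i = (n + 2) * i' := by omega
  exact Nat.eq_of_mul_eq_mul_left (by omega) this

theorem not_rep (n i j : ℕ) : (n + 2) * i + (n + 3) * j ≠ n ^ 2 + 3 * n + 1 := by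
  intro h
  have hj : j < n + 2 := by
    by_contra hcon
    push Not at hcon
    nlinarith
  have e : (n + 2) * (i + j) + j = (n + 2) * n + (n + 1) := by nlinarith
  have e1 : ((n + 2) * (i + j) + j) % (n + 2) = j := by
    rw [Nat.mul_add_mod, Nat.mod_eq_of_lt hj]
  have e2 : ((n + 2) * n + (n + 1)) % (n + 2) = n + 1 := by
    rw [Nat.mul_add_mod, Nat.mod_eq_of_lt (by omega)]
  have hjj : j = n + 1 := by rw [← e1, ← e2, e]
  subst hjj
  nlinarith

variable {R : Type*} [CommRing R]

/-- The ideals used to filter `R` by order along the curve. -/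
def J {E : Type*} [CommRing E] (φ : R →+* E) (T : E) (x y : R) (n k : ℕ) : Ideal R :=
  Ideal.span {g | ∃ i j : ℕ, k ≤ (n + 2) * i + (n + 3) * j ∧ g = x ^ i * y ^ j} ⊔
    (Ideal.span {T ^ (n ^ 2 + 3 * n + 2)}).comap φ

section
variable {E : Type*} [CommRing E] (φ : R →+* E) (T : E) (x y : R) (n : ℕ)

theorem mono_mem_J {k i j : ℕ} (h : k ≤ (n + 2) * i + (n + 3) * j) :
    x ^ i * y ^ j ∈ J φ T x y n k :=
  Ideal.mem_sup_left (Ideal.subset_span ⟨i, j, h, rfl⟩)

theorem mem_J_of_dvd {k : ℕ} {g : R} (h : T ^ (n ^ 2 + 3 * n + 2) ∣ φ g) :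
    g ∈ J φ T x y n k :=
  Ideal.mem_sup_right (Ideal.mem_comap.2 (Ideal.mem_span_singleton.2 h))

theorem dvd_of_mem_J (hx : φ x = T ^ (n + 2)) (hy : φ y = T ^ (n + 3)) {k : ℕ}
    (hk : k ≤ n ^ 2 + 3 * n + 2) {g : R} (hg : g ∈ J φ T x y n k) : T ^ k ∣ φ g := by
  have hle : J φ T x y n k ≤ (Ideal.span {T ^ k}).comap φ := by
    refine sup_le ?_ ?_
    · rw [Ideal.span_le]
      rintro _ ⟨i, j, hij, rfl⟩
      simp only [Ideal.coe_comap, Set.mem_preimage, SetLike.mem_coe, Ideal.mem_span_singleton,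
        map_mul, map_pow, hx, hy]
      rw [← pow_mul, ← pow_mul, ← pow_add]
      exact pow_dvd_pow _ hij
    · refine Ideal.comap_mono ?_
      rw [Ideal.span_singleton_le_span_singleton]
      exact pow_dvd_pow _ hk
  have := hle hg
  rwa [Ideal.mem_comap, Ideal.mem_span_singleton] at this

end

section
variable {E : Type*} [CommRing E] [IsDomain E]

/-- One step of the filtration argument. -/
theorem J_step (φ : R →+* E) (T : E) (hT : T ≠ 0) (x y z : R) (S : Set R) (n : ℕ)
    (hx : φ x = T ^ (n + 2)) (hy : φ y = T ^ (n + 3)) (hz : φ z = T ^ (n ^ 2 + 3 * n + 1))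
    (hS : ∀ s ∈ S, φ s = 0) (hm : ∀ r, T ∣ φ r → r ∈ Ideal.span (insert x (insert y (insert z S))))
    {k : ℕ} (hk1 : 1 ≤ k) (hk : k ≤ n ^ 2 + 3 * n + 1) {g : R} (hg : g ∈ J φ T x y n k)
    (hd : T ^ (k + 1) ∣ φ g) : g ∈ J φ T x y n (k + 1) := by
  by_cases hrep : ∃ i j : ℕ, (n + 2) * i + (n + 3) * j = k
  · obtain ⟨i, j, hij⟩ := hrep
    have hle : J φ T x y n k ≤ Ideal.span {x ^ i * y ^ j} ⊔ J φ T x y n (k + 1) := by
      refine sup_le ?_ ?_
      · rw [Ideal.span_le]
        rintro _ ⟨i', j', hij', rfl⟩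
        rcases Nat.lt_or_ge k ((n + 2) * i' + (n + 3) * j') with h | h
        · exact Ideal.mem_sup_right (mono_mem_J φ T x y n h)
        · have h2 : (n + 2) * i' + (n + 3) * j' = k := le_antisymm h hij'
          obtain ⟨rfl, rfl⟩ := rep_unique n i j i' j' k hk hij h2
          exact Ideal.mem_sup_left (Ideal.subset_span rfl)
      · exact le_sup_of_le_right le_sup_right
    obtain ⟨p, hp, g', hg', hpg⟩ := Submodule.mem_sup.1 (hle hg)
    obtain ⟨r, rfl⟩ := Ideal.mem_span_singleton'.1 hp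
    have hd' : T ^ (k + 1) ∣ φ g' := dvd_of_mem_J φ T x y n hx hy (by omega) hg'
    have hd2 : T ^ (k + 1) ∣ φ r * T ^ k := by
      have h3 : φ (r * (x ^ i * y ^ j)) = φ r * T ^ k := by
        rw [map_mul, map_mul, map_pow, map_pow, hx, hy, ← pow_mul, ← pow_mul, ← pow_add, hij]
      have h4 : φ g = φ r * T ^ k + φ g' := by rw [← hpg, map_add, h3]
      rw [h4] at hd
      exact (dvd_add_left hd').1 hd
    have hd3 : T ∣ φ r := by
      rw [pow_succ'] at hd2
      exact (mul_dvd_mul_iff_right (pow_ne_zero k hT)).1 hd2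
    have hr := hm r hd3
    rw [← hpg]
    refine Ideal.add_mem _ ?_ hg'
    refine Submodule.span_induction (p := fun r _ ↦ r * (x ^ i * y ^ j) ∈ J φ T x y n (k + 1))
      ?_ ?_ ?_ ?_ hr
    · rintro s hs
      rcases hs with rfl | rfl | rfl | hs
      · rw [show s * (s ^ i * y ^ j) = s ^ (i + 1) * y ^ j by ring]
        exact mono_mem_J φ T s y n (by nlinarith)
      · rw [show s * (x ^ i * s ^ j) = x ^ i * s ^ (j + 1) by ring]
        exact mono_mem_J φ T x s n (by nlinarith)
      · refine mem_J_of_dvd φ T x y n ?_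
        rw [map_mul, map_mul, map_pow, map_pow, hx, hy, hz, ← pow_mul, ← pow_mul, ← pow_add,
          ← pow_add]
        exact pow_dvd_pow _ (by omega)
      · refine mem_J_of_dvd φ T x y n ?_
        rw [map_mul, hS s hs, zero_mul]
        exact dvd_zero _
    · simp
    · intro a b _ _ ha hb
      rw [add_mul]
      exact Ideal.add_mem _ ha hb
    · intro a b _ hb
      rw [smul_eq_mul, mul_assoc]
      exact Ideal.mul_mem_left _ _ hb
  · have hle : J φ T x y n k ≤ J φ T x y n (k + 1) := by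
      refine sup_le ?_ le_sup_right
      rw [Ideal.span_le]
      rintro _ ⟨i', j', hij', rfl⟩
      refine mono_mem_J φ T x y n ?_
      rcases Nat.lt_or_ge k ((n + 2) * i' + (n + 3) * j') with h | h
      · exact h
      · exact absurd ⟨i', j', le_antisymm h hij'⟩ hrep
    exact hle hg

/-- The value argument: an element of the kernel of `φ` has no unit multiple of `z` in it. -/
theorem ker_le (φ : R →+* E) (T : E) (hT : T ≠ 0) (x y z : R) (S : Set R) (n : ℕ)
    (hx : φ x = T ^ (n + 2)) (hy : φ y = T ^ (n + 3)) (hz : φ z = T ^ (n ^ 2 + 3 * n + 1))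
    (hS : ∀ s ∈ S, φ s = 0) (hm : ∀ r, T ∣ φ r → r ∈ Ideal.span (insert x (insert y (insert z S))))
    {g : R} (hg : φ g = 0) : g ∈ Ideal.span (insert x (insert y S)) ⊔ Ideal.span {z ^ 2} := by
  have hspan : Ideal.span (insert x (insert y (insert z S))) =
      Ideal.span (insert x (insert y S)) ⊔ Ideal.span {z} := by
    rw [← Ideal.span_union]
    congr 1
    ext s
    simp only [Set.mem_insert_iff, Set.mem_union, Set.mem_singleton_iff]
    tauto
  have hgm := hm g (by rw [hg]; exact dvd_zero _)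
  rw [hspan] at hgm
  obtain ⟨p, hp, q, hq, hpq⟩ := Submodule.mem_sup.1 hgm
  obtain ⟨c, rfl⟩ := Ideal.mem_span_singleton'.1 hq
  -- `p` has the same order as `c z`
  have hpe : φ p = - (φ c * T ^ (n ^ 2 + 3 * n + 1)) := by
    have h1 : φ p + φ c * T ^ (n ^ 2 + 3 * n + 1) = 0 := by
      rw [← hz, ← map_mul, ← map_add, hpq, hg]
    exact eq_neg_of_add_eq_zero_left h1
  have hJ : ∀ k, k ≤ n ^ 2 + 3 * n → p ∈ J φ T x y n (k + 1) := by
    intro k
    induction k with
    | zero =>
      intro _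
      have hle : Ideal.span (insert x (insert y S)) ≤ J φ T x y n (0 + 1) := by
        rw [Ideal.span_le]
        rintro s hs
        rcases hs with rfl | rfl | hs
        · have := mono_mem_J φ T s y n (k := 0 + 1) (i := 1) (j := 0) (by omega)
          simpa using this
        · have := mono_mem_J φ T x s n (k := 0 + 1) (i := 0) (j := 1) (by omega)
          simpa using this
        · refine mem_J_of_dvd φ T x y n ?_
          rw [hS s hs]
          exact dvd_zero _
      exact hle hp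
    | succ k ih =>
      intro hk
      refine J_step φ T hT x y z S n hx hy hz hS hm (by omega) (by omega) (ih (by omega)) ?_
      rw [hpe, dvd_neg]
      exact Dvd.dvd.mul_left (pow_dvd_pow _ (by omega)) _
  have hJc : p ∈ J φ T x y n (n ^ 2 + 3 * n + 1) := hJ _ le_rfl
  have hle : J φ T x y n (n ^ 2 + 3 * n + 1) ≤ J φ T x y n (n ^ 2 + 3 * n + 2) := by
    refine sup_le ?_ le_sup_right
    rw [Ideal.span_le]
    rintro _ ⟨i', j', hij', rfl⟩
    refine mono_mem_J φ T x y n ?_
    rcases Nat.lt_or_ge (n ^ 2 + 3 * n + 1) ((n + 2) * i' + (n + 3) * j') with h | h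
    · exact h
    · exact absurd (le_antisymm h hij') (not_rep n i' j')
  have hd : T ^ (n ^ 2 + 3 * n + 2) ∣ φ p := dvd_of_mem_J φ T x y n hx hy le_rfl (hle hJc)
  rw [hpe, dvd_neg, pow_succ' T (n ^ 2 + 3 * n + 1)] at hd
  have hTc : T ∣ φ c := (mul_dvd_mul_iff_right (pow_ne_zero _ hT)).1 hd
  have hc := hm c hTc
  rw [hspan] at hc
  obtain ⟨p', hp', q', hq', hpq'⟩ := Submodule.mem_sup.1 hc
  obtain ⟨d, rfl⟩ := Ideal.mem_span_singleton'.1 hq'
  rw [← hpq, ← hpq']
  have : p + (p' + d * z) * z = (p + p' * z) + d * z ^ 2 := by ring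
  rw [this]
  refine Submodule.add_mem_sup (Ideal.add_mem _ hp (Ideal.mul_mem_right _ _ hp')) ?_
  exact Ideal.mem_span_singleton'.2 ⟨d, rfl⟩

end

end Pool.Agent.Lib.MP_48a29b_ag
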