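import Mathlib
import Pool.Agent.Lib.MP_48a29b_ag.Defs
import Pool.Agent.Lib.MP_48a29b_ag.Core
import Pool.Agent.Lib.MP_48a29b_ag.Value
import Pool.Agent.Lib.MP_48a29b_ag.Prime

/-!
The failure of the containment in every regular local ring of dimension at least three.
-/

namespace Pool.Agent.Lib.MP_48a29b_ag

open Ideal Polynomial IsLocalRing

universe u

theorem mem_symbolicPower_of_isPrime {R : Type u} [CommRing R] (P : Ideal R) [hP : P.IsPrime]
    (m : ℕ) {f u : R} (hu : u ∉ P) (h : u * f ∈ P ^ m) : f ∈ symbolicPower P m := by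
  rw [symbolicPower, Submodule.mem_iInf]
  rintro ⟨Q, hQ⟩
  have hQP : Q = P := by
    rw [Ideal.minimalPrimes_eq_subsingleton_self] at hQ
    exact hQ
  subst hQP
  rw [Ideal.mem_comap]
  have h1 := Ideal.mem_map_of_mem (algebraMap R (Localization.AtPrime Q)) h
  rw [map_mul] at h1
  have h2 : IsUnit (algebraMap R (Localization.AtPrime Q) u) :=
    IsLocalization.map_units (Localization.AtPrime Q) (⟨u, hu⟩ : Q.primeCompl)
  exact (Ideal.unit_mul_mem_iff_mem _ h2).1 h1

theorem not_containment {R : Type u} [CommRing R] [IsRegularLocalRing R] (n : ℕ)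
    (hdim : ringKrullDim R = n) (h3 : 3 ≤ n) :
    ∃ P : Ideal R, P.IsPrime ∧
      ¬ symbolicPower P ((n + 1) * n) ≤
        maximalIdeal R ^ ((n + 1) * n - (n + 1)) * P ^ (n + 1) := by
  classical
  have hht : (maximalIdeal R).height = (n : ℕ∞) := by
    have := IsLocalRing.maximalIdeal_height_eq_ringKrullDim (R := R)
    rw [hdim] at this
    exact_mod_cast this
  have hfr : (maximalIdeal R).spanFinrank = n := by
    have := IsRegularLocalRing.spanFinrank_maximalIdeal (R := R)
    rw [hdim] at this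
    exact_mod_cast this
  obtain ⟨s, hsc, hss⟩ := Submodule.FG.exists_span_finset_card_eq_spanFinrank
    ((maximalIdeal R).fg_of_isNoetherianRing)
  rw [hfr] at hsc
  let e := (s.equivFinOfCardEq hsc).symm
  let v : Fin n → R := fun i ↦ (e i : R)
  have hrange : Set.range v = (s : Set R) := by
    ext t
    constructor
    · rintro ⟨i, rfl⟩
      exact (e i).2
    · intro ht
      exact ⟨e.symm ⟨t, ht⟩, by simp [v]⟩
  have hv : Ideal.span (Set.range v) = maximalIdeal R := by
    rw [hrange]; exact hss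
  let i0 : Fin n := ⟨0, by omega⟩
  let i1 : Fin n := ⟨1, by omega⟩
  let i2 : Fin n := ⟨2, by omega⟩
  have h01 : i0 ≠ i1 := by simp [i0, i1]
  have h02 : i0 ≠ i2 := by simp [i0, i2]
  have h12 : i1 ≠ i2 := by simp [i1, i2]
  let p : Fin n → R[X] := fun i ↦ if i = i0 then X ^ (n + 2) else if i = i1 then X ^ (n + 3) else
    if i = i2 then X ^ (n ^ 2 + 3 * n + 1) else 0
  have hp : ∀ i, X ∣ p i := by
    intro i
    simp only [p]
    split_ifs
    · exact dvd_pow_self _ (by omega)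
    · exact dvd_pow_self _ (by omega)
    · exact dvd_pow_self _ (by omega)
    · exact dvd_zero _
  obtain ⟨E, _, _, ψ, hT, hψ, hψm⟩ := exists_prime n v hv hht.ge p hp
  obtain ⟨T, hTdef⟩ : ∃ T, T = ψ X := ⟨_, rfl⟩
  rw [← hTdef] at hT hψm
  let φ : R →+* E := ψ.comp C
  have hx : φ (v i0) = T ^ (n + 2) := by
    change ψ (C (v i0)) = _
    rw [hψ]
    simp [p, hTdef]
  have hy : φ (v i1) = T ^ (n + 3) := by
    change ψ (C (v i1)) = _
    rw [hψ]
    simp [p, hTdef, h01.symm]
  have hz : φ (v i2) = T ^ (n ^ 2 + 3 * n + 1) := by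
    change ψ (C (v i2)) = _
    rw [hψ]
    simp [p, hTdef, h02.symm, h12.symm]
  let S : Set R := {t | ∃ i, i ≠ i0 ∧ i ≠ i1 ∧ i ≠ i2 ∧ t = v i}
  have hS : ∀ t ∈ S, φ t = 0 := by
    rintro t ⟨i, hi0, hi1, hi2, rfl⟩
    change ψ (C (v i)) = _
    rw [hψ]
    simp [p, hi0, hi1, hi2]
  have hset : Set.range v = insert (v i0) (insert (v i1) (insert (v i2) S)) := by
    ext t
    simp only [Set.mem_range, Set.mem_insert_iff, S, Set.mem_ofPred_eq]
    constructor
    · rintro ⟨i, rfl⟩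
      by_cases hi0 : i = i0
      · left; rw [hi0]
      by_cases hi1 : i = i1
      · right; left; rw [hi1]
      by_cases hi2 : i = i2
      · right; right; left; rw [hi2]
      · right; right; right; exact ⟨i, hi0, hi1, hi2, rfl⟩
    · rintro (rfl | rfl | rfl | ⟨i, _, _, _, rfl⟩)
      · exact ⟨_, rfl⟩
      · exact ⟨_, rfl⟩
      · exact ⟨_, rfl⟩
      · exact ⟨_, rfl⟩
  have hm : ∀ r, T ∣ φ r → r ∈ Ideal.span (insert (v i0) (insert (v i1) (insert (v i2) S))) := by
    intro r hr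
    rw [← hset, hv]
    exact hψm r hr
  -- the prime
  have hPp : (RingHom.ker φ).IsPrime := RingHom.ker_isPrime φ
  refine ⟨RingHom.ker φ, hPp, ?_⟩
  intro hcon
  obtain ⟨P, hPdef⟩ : ∃ P, P = RingHom.ker φ := ⟨_, rfl⟩
  rw [← hPdef] at hcon hPp
  have hPmem : ∀ r, r ∈ P ↔ φ r = 0 := by
    intro r; rw [hPdef, RingHom.mem_ker]
  obtain ⟨w, hw⟩ := exists_key n (v i0) (v i1) (v i2)
  have hFG : Ideal.span {v i1 * v i2 - v i0 ^ (n + 2), v i1 ^ (n + 2) - v i0 ^ (n + 3)} ≤ P := by
    rw [Ideal.span_le]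
    rintro t (rfl | rfl)
    · rw [SetLike.mem_coe, hPmem, map_sub, map_mul, map_pow, hx, hy, hz, ← pow_mul, ← pow_add,
        sub_eq_zero]
      congr 1; ring
    · rw [SetLike.mem_coe, hPmem, map_sub, map_pow, map_pow, hx, hy, ← pow_mul, ← pow_mul,
        sub_eq_zero]
      congr 1; ring
  have hyP : v i1 ^ (n + 2) ∉ P := by
    rw [hPmem, map_pow, hy]
    exact pow_ne_zero _ (pow_ne_zero _ hT)
  have hf : (v i2 ^ (n + 2) - v i0 * w) ^ n ∈ symbolicPower P ((n + 1) * n) := by
    have hu : (v i1 ^ (n + 2)) ^ n ∉ P := fun h ↦ hyP (hPp.mem_of_pow_mem _ h)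
    refine mem_symbolicPower_of_isPrime P _ hu ?_
    rw [← mul_pow, pow_mul]
    exact Ideal.pow_mem_pow (Ideal.pow_right_mono hFG _ hw) n
  have hf2 := hcon hf
  -- the test ideal
  let sF : Finset R := (Finset.univ.erase i2).image v
  have hsF : (sF : Set R) = insert (v i0) (insert (v i1) S) := by
    ext t
    simp only [sF, Finset.coe_image, Finset.coe_erase, Finset.coe_univ, Set.mem_image,
      Set.mem_sdiff, Set.mem_univ, Set.mem_singleton_iff, true_and, Set.mem_insert_iff, S,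
      Set.mem_ofPred_eq]
    constructor
    · rintro ⟨i, hi2, rfl⟩
      by_cases hi0 : i = i0
      · left; rw [hi0]
      by_cases hi1 : i = i1
      · right; left; rw [hi1]
      · right; right; exact ⟨i, hi0, hi1, hi2, rfl⟩
    · rintro (rfl | rfl | ⟨i, _, _, hi2, rfl⟩)
      · exact ⟨i0, h02, rfl⟩
      · exact ⟨i1, h12, rfl⟩
      · exact ⟨i, hi2, rfl⟩
  have hsFc : sF.card < n := by
    have h1 := Finset.card_image_le (s := (Finset.univ : Finset (Fin n)).erase i2) (f := v)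
    have h2 : ((Finset.univ : Finset (Fin n)).erase i2).card = n - 1 := by
      rw [Finset.card_erase_of_mem (Finset.mem_univ _), Finset.card_univ, Fintype.card_fin]
    have h3 : sF.card ≤ n - 1 := h1.trans h2.le
    omega
  have hsFm : Ideal.span (insert (v i2) (sF : Set R)) = maximalIdeal R := by
    rw [hsF, ← hv, hset]
    congr 1
    ext t
    simp only [Set.mem_insert_iff]
    tauto
  obtain ⟨N, hN⟩ : ∃ N, N = Ideal.span (sF : Set R) := ⟨_, rfl⟩
  have hnot := pow_not_mem n hht.ge sF hsFc (v i2) hsFm ((n + 2) * n)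
  rw [← hN] at hnot
  apply hnot
  let q := Ideal.Quotient.mk N
  have hq0 : ∀ t ∈ (sF : Set R), q t = 0 := by
    intro t ht
    rw [Ideal.Quotient.eq_zero_iff_mem, hN]
    exact Ideal.subset_span ht
  have hqm : (maximalIdeal R).map q ≤ Ideal.span {q (v i2)} := by
    rw [← hsFm, Ideal.map_span, Ideal.span_le]
    rintro _ ⟨t, ht, rfl⟩
    rcases ht with rfl | ht
    · exact Ideal.subset_span rfl
    · rw [hq0 t ht]; exact zero_mem _
  have hqP : P.map q ≤ Ideal.span {q (v i2) ^ 2} := by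
    rw [Ideal.map_le_iff_le_comap]
    intro g hg
    rw [hPmem] at hg
    have h1 := ker_le φ T hT (v i0) (v i1) (v i2) S n hx hy hz hS hm hg
    rw [← hsF, ← hN] at h1
    obtain ⟨a, ha, b, hb, hab⟩ := Submodule.mem_sup.1 h1
    rw [Ideal.mem_comap, ← hab, map_add, show q a = 0 from Ideal.Quotient.eq_zero_iff_mem.2 ha,
      zero_add]
    obtain ⟨c, rfl⟩ := Ideal.mem_span_singleton'.1 hb
    rw [map_mul, map_pow]
    exact Ideal.mul_mem_left _ _ (Ideal.subset_span rfl)
  have hqall : (maximalIdeal R ^ ((n + 1) * n - (n + 1)) * P ^ (n + 1)).map q ≤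
      Ideal.span {q (v i2) ^ ((n + 2) * n + 1)} := by
    rw [Ideal.map_mul, Ideal.map_pow, Ideal.map_pow]
    refine (Ideal.mul_mono (Ideal.pow_right_mono hqm _) (Ideal.pow_right_mono hqP _)).trans ?_
    rw [Ideal.span_singleton_pow, Ideal.span_singleton_pow, Ideal.span_singleton_mul_span_singleton,
      ← pow_mul, ← pow_add]
    have : (n + 1) * n - (n + 1) + 2 * (n + 1) = (n + 2) * n + 1 := by
      obtain ⟨k, rfl⟩ : ∃ k, n = k + 1 := ⟨n - 1, by omega⟩
      have : (k + 1 + 1) * (k + 1) - (k + 1 + 1) = (k + 2) * k := by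
        rw [Nat.mul_succ, Nat.add_sub_cancel]
      rw [this]; ring
    rw [this]
  have hf3 := hqall (Ideal.mem_map_of_mem q hf2)
  have hqx : q (v i0) = 0 := hq0 _ (by rw [hsF]; exact Or.inl rfl)
  rw [map_pow, map_sub, map_mul, hqx, zero_mul, sub_zero, map_pow, ← pow_mul] at hf3
  obtain ⟨c, hc⟩ := Ideal.mem_span_singleton'.1 hf3
  obtain ⟨c', rfl⟩ := Ideal.Quotient.mk_surjective c
  have h5 : v i2 ^ ((n + 2) * n) * (1 - c' * v i2) ∈ N := by
    rw [← Ideal.Quotient.eq_zero_iff_mem, map_mul, map_sub, map_pow, map_mul, map_one]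
    have : q (v i2) ^ ((n + 2) * n) * (1 - q c' * q (v i2)) =
        q (v i2) ^ ((n + 2) * n) - q c' * q (v i2) ^ ((n + 2) * n + 1) := by ring
    change q (v i2) ^ ((n + 2) * n) * (1 - q c' * q (v i2)) = 0
    rw [this]
    change q c' * q (v i2) ^ ((n + 2) * n + 1) = q (v i2) ^ ((n + 2) * n) at hc
    rw [hc, sub_self]
  have h6 : IsUnit (1 - c' * v i2) := by
    by_contra hnu
    have h7 := (IsLocalRing.mem_maximalIdeal _).2 hnu
    have h8 : c' * v i2 ∈ maximalIdeal R := by
      refine Ideal.mul_mem_left _ _ ?_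
      rw [← hv]
      exact Ideal.subset_span ⟨_, rfl⟩
    have h9 := Ideal.add_mem _ h7 h8
    rw [sub_add_cancel] at h9
    exact (Ideal.ne_top_iff_one _).1 Ideal.IsPrime.ne_top' h9
  rw [mul_comm] at h5
  exact (Ideal.unit_mul_mem_iff_mem _ h6).1 h5

end Pool.Agent.Lib.MP_48a29b_ag
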