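import Mathlib
import Pool.Agent.Lib.MP_48a29b_ag.Neg

/-!
The containment in regular local rings of dimension at most two.
-/

namespace Pool.Agent.Lib.MP_48a29b_ag

open Ideal Polynomial IsLocalRing

universe u

variable {R : Type u} [CommRing R]

/-- A prime contained in a principal ideal generated by an element outside it is zero. -/
theorem prime_eq_bot [IsLocalRing R] [IsNoetherianRing R] {t : R} (ht : t ∈ maximalIdeal R)
    {Q : Ideal R} [hQ : Q.IsPrime] (hle : Q ≤ Ideal.span {t}) (htQ : t ∉ Q) : Q = ⊥ := by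
  refine Submodule.eq_bot_of_le_smul_of_le_jacobson_bot (Ideal.span {t}) Q
    (IsNoetherian.noetherian Q) ?_ ?_
  · intro q hq
    obtain ⟨a, rfl⟩ := Ideal.mem_span_singleton'.1 (hle hq)
    have ha : a ∈ Q := (hQ.mem_or_mem hq).resolve_right htQ
    rw [mul_comm, smul_eq_mul]
    exact Ideal.mul_mem_mul (Ideal.mem_span_singleton_self t) ha
  · rw [IsLocalRing.jacobson_eq_maximalIdeal _ bot_ne_top, Ideal.span_singleton_le_iff_mem]
    exact ht

theorem isDomain_of_span_prime [IsLocalRing R] [IsNoetherianRing R] {t : R}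
    (ht : t ∈ maximalIdeal R) (hp : (Ideal.span {t}).IsPrime)
    (havoid : ∀ Q ∈ minimalPrimes R, t ∉ Q) : IsDomain R := by
  obtain ⟨Q, hQ, hQt⟩ := Ideal.exists_minimalPrimes_le (bot_le : (⊥ : Ideal R) ≤ Ideal.span {t})
  have hQp : Q.IsPrime := hQ.1.1
  have hQb := prime_eq_bot ht hQt (havoid Q hQ)
  subst hQb
  exact IsDomain.of_bot_isPrime R

/-- A Noetherian local ring of positive dimension with principal maximal ideal. -/
theorem dim_one [IsLocalRing R] [IsNoetherianRing R] {t : R}
    (ht : maximalIdeal R = Ideal.span {t}) (hh : 1 ≤ (maximalIdeal R).height) :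
    IsDomain R ∧ IsPrincipalIdealRing R := by
  have htm : t ∈ maximalIdeal R := by rw [ht]; exact Ideal.mem_span_singleton_self t
  constructor
  · refine isDomain_of_span_prime htm ?_ ?_
    · rw [← ht]; infer_instance
    · intro Q hQ htQ
      have hQp : Q.IsPrime := hQ.1.1
      have h1 : maximalIdeal R ≤ Q := by
        rw [ht, Ideal.span_singleton_le_iff_mem]; exact htQ
      have h2 : (maximalIdeal R).height ≤ Q.height := Ideal.height_mono h1
      rw [Ideal.height_eq_zero_iff.2 hQ] at h2
      exact absurd (hh.trans h2) (by simp)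
  · refine IsPrincipalIdealRing.of_prime ?_
    intro P hP
    by_cases htP : t ∈ P
    · have h1 : P = maximalIdeal R := by
        refine le_antisymm (IsLocalRing.le_maximalIdeal hP.ne_top) ?_
        rw [ht, Ideal.span_singleton_le_iff_mem]; exact htP
      rw [h1, ht]
      exact ⟨t, rfl⟩
    · have h1 : P ≤ Ideal.span {t} := by
        rw [← ht]; exact IsLocalRing.le_maximalIdeal hP.ne_top
      rw [prime_eq_bot htm h1 htP]
      infer_instance

/-- Avoiding `𝔪²` and finitely many non-maximal primes. -/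
theorem exists_avoid [IsLocalRing R] [IsNoetherianRing R]
    (hh : 1 ≤ (maximalIdeal R).height) (s : Set (Ideal R)) (hs : s.Finite)
    (hprime : ∀ P ∈ s, P.IsPrime) (hne : ∀ P ∈ s, P ≠ maximalIdeal R) :
    ∃ t ∈ maximalIdeal R, t ∉ maximalIdeal R ^ 2 ∧ ∀ P ∈ s, t ∉ P := by
  by_contra hcon
  push Not at hcon
  have hsub : ((maximalIdeal R : Ideal R) : Set R) ⊆
      ⋃ i ∈ insert (maximalIdeal R ^ 2) s, ((id i : Ideal R) : Set R) := by
    intro t ht
    simp only [Set.mem_insert_iff, Set.iUnion_iUnion_eq_or_left, Set.mem_union, Set.mem_iUnion,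
      SetLike.mem_coe, id_eq]
    by_cases h2 : t ∈ maximalIdeal R ^ 2
    · exact Or.inl h2
    · obtain ⟨P, hP, htP⟩ := hcon t ht h2
      exact Or.inr ⟨P, hP, htP⟩
  rw [Ideal.subset_union_prime_finite (hs.insert _) (f := id) (maximalIdeal R ^ 2)
    (maximalIdeal R ^ 2)] at hsub
  · obtain ⟨P, hP, hle⟩ := hsub
    rcases hP with rfl | hP
    · have hb : maximalIdeal R = ⊥ := by
        refine Submodule.eq_bot_of_le_smul_of_le_jacobson_bot (maximalIdeal R) (maximalIdeal R)
          (IsNoetherian.noetherian _) ?_ ?_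
        · rw [smul_eq_mul, ← pow_two]; exact hle
        · rw [IsLocalRing.jacobson_eq_maximalIdeal _ bot_ne_top]
      rw [hb, Ideal.height_bot] at hh
      exact absurd hh (by simp)
    · have := hprime P hP
      exact hne P hP (le_antisymm (IsLocalRing.le_maximalIdeal this.ne_top) hle)
  · intro i hi h1 _
    rcases hi with rfl | hi
    · exact absurd rfl h1
    · exact hprime i hi

/-- In a two-generated maximal ideal an element outside the square is part of a generating pair. -/
theorem exists_pair [IsLocalRing R] {x y t : R} (hm : maximalIdeal R = Ideal.span {x, y})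
    (ht : t ∈ maximalIdeal R) (ht2 : t ∉ maximalIdeal R ^ 2) :
    ∃ s, maximalIdeal R = Ideal.span {t, s} := by
  have hx : x ∈ maximalIdeal R := by rw [hm]; exact Ideal.subset_span (by simp)
  have hy : y ∈ maximalIdeal R := by rw [hm]; exact Ideal.subset_span (by simp)
  have ht' := ht
  rw [hm, Ideal.mem_span_pair] at ht'
  obtain ⟨a, b, rfl⟩ := ht'
  by_cases ha : a ∈ maximalIdeal R
  · by_cases hb : b ∈ maximalIdeal R
    · exfalso
      apply ht2
      rw [pow_two]
      exact Ideal.add_mem _ (Ideal.mul_mem_mul ha hx) (Ideal.mul_mem_mul hb hy)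
    · have hbu : IsUnit b := by
        by_contra h; exact hb ((IsLocalRing.mem_maximalIdeal b).2 h)
      refine ⟨x, le_antisymm ?_ ?_⟩
      · rw [hm, Ideal.span_le]
        rintro z (rfl | rfl)
        · exact Ideal.subset_span (by simp)
        · rw [SetLike.mem_coe, ← Ideal.unit_mul_mem_iff_mem _ hbu, Ideal.mem_span_pair]
          exact ⟨1, -a, by ring⟩
      · rw [Ideal.span_le]
        rintro z (rfl | rfl)
        · exact ht
        · exact hx
  · have hau : IsUnit a := by
      by_contra h; exact ha ((IsLocalRing.mem_maximalIdeal a).2 h)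
    refine ⟨y, le_antisymm ?_ ?_⟩
    · rw [hm, Ideal.span_le]
      rintro z (rfl | rfl)
      · rw [SetLike.mem_coe, ← Ideal.unit_mul_mem_iff_mem _ hau, Ideal.mem_span_pair]
        exact ⟨1, -b, by ring⟩
      · exact Ideal.subset_span (by simp)
    · rw [Ideal.span_le]
      rintro z (rfl | rfl)
      · exact ht
      · exact hy

/-- The quotient of a two-dimensional regular local ring by a parameter outside `𝔪²`. -/
theorem quot_dim_one [IsLocalRing R] [IsNoetherianRing R] {t s : R}
    (hm : maximalIdeal R = Ideal.span {t, s}) (hh : 2 ≤ (maximalIdeal R).height) :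
    IsDomain (R ⧸ Ideal.span {t}) ∧ IsPrincipalIdealRing (R ⧸ Ideal.span {t}) := by
  have ht : t ∈ maximalIdeal R := by rw [hm]; exact Ideal.subset_span (by simp)
  have hne : Ideal.span {t} ≠ ⊤ := by
    intro h
    have h1 : Ideal.span {t} ≤ maximalIdeal R := (Ideal.span_singleton_le_iff_mem _).2 ht
    rw [h, top_le_iff] at h1
    exact (Ideal.IsPrime.ne_top') h1
  have : Nontrivial (R ⧸ Ideal.span {t}) := Ideal.Quotient.nontrivial_iff.2 hne
  have : IsLocalRing (R ⧸ Ideal.span {t}) :=
    IsLocalRing.of_surjective' (Ideal.Quotient.mk (Ideal.span {t})) Ideal.Quotient.mk_surjective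
  have hmax : maximalIdeal (R ⧸ Ideal.span {t}) =
      (maximalIdeal R).map (Ideal.Quotient.mk (Ideal.span {t})) := by
    symm
    have h1 : ((maximalIdeal R).map (Ideal.Quotient.mk (Ideal.span {t}))).IsMaximal := by
      rcases Ideal.map_eq_top_or_isMaximal_of_surjective (Ideal.Quotient.mk (Ideal.span {t}))
        Ideal.Quotient.mk_surjective (maximalIdeal.isMaximal R) with h | h
      · exfalso
        have h2 := congrArg (Ideal.comap (Ideal.Quotient.mk (Ideal.span {t}))) h
        rw [Ideal.comap_map_of_surjective _ Ideal.Quotient.mk_surjective, Ideal.comap_top] at h2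
        have h3 : Ideal.comap (Ideal.Quotient.mk (Ideal.span {t})) ⊥ ≤ maximalIdeal R := by
          intro r hr
          rw [Ideal.mem_comap, Ideal.mem_bot, Ideal.Quotient.eq_zero_iff_mem] at hr
          exact (Ideal.span_singleton_le_iff_mem _).2 ht hr
        rw [sup_eq_left.2 h3] at h2
        exact (Ideal.IsPrime.ne_top') h2
      · exact h
    exact IsLocalRing.eq_maximalIdeal h1
  have hmax2 : maximalIdeal (R ⧸ Ideal.span {t}) =
      Ideal.span {Ideal.Quotient.mk (Ideal.span {t}) s} := by
    rw [hmax, hm, Ideal.map_span, Set.image_pair]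
    have h0 : Ideal.Quotient.mk (Ideal.span {t}) t = 0 :=
      Ideal.Quotient.eq_zero_iff_mem.2 (Ideal.mem_span_singleton_self t)
    rw [h0]
    refine le_antisymm ?_ (Ideal.span_mono (by simp))
    rw [Ideal.span_le]
    rintro z (rfl | rfl)
    · exact zero_mem _
    · exact Ideal.subset_span rfl
  refine dim_one hmax2 ?_
  have h1 := Ideal.height_le_ringKrullDim_quotient_add_one ht
  have h2 : (2 : WithBot ℕ∞) ≤ ringKrullDim (R ⧸ Ideal.span {t}) + 1 := by
    exact le_trans (WithBot.coe_le_coe.2 hh) h1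
  rw [← IsLocalRing.maximalIdeal_height_eq_ringKrullDim] at h2
  have h3 : (1 : ℕ∞) + 1 ≤ (maximalIdeal (R ⧸ Ideal.span {t})).height + 1 := by
    have h4 : ((1 : ℕ∞) + 1 : ℕ∞) = 2 := one_add_one_eq_two
    rw [h4]
    exact WithBot.coe_le_coe.1 h2
  exact (ENat.add_le_add_iff_right ENat.one_ne_top).1 h3

/-- A radical ideal strictly different from the maximal one has only non-maximal minimal primes. -/
theorem minimalPrime_ne_maximal [IsLocalRing R] {I : Ideal R} (hI : I.IsRadical) (htop : I ≠ ⊤)
    (hne : I ≠ maximalIdeal R) : ∀ P ∈ I.minimalPrimes, P ≠ maximalIdeal R := by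
  rintro P hP rfl
  apply hne
  refine le_antisymm (IsLocalRing.le_maximalIdeal htop) ?_
  rw [← hI.radical, ← Ideal.sInf_minimalPrimes]
  refine le_sInf ?_
  intro Q hQ
  have hQp : Q.IsPrime := hQ.1.1
  exact hP.2 hQ.1 (IsLocalRing.le_maximalIdeal hQp.ne_top)

/-- Radical ideals in a two-dimensional regular local ring. -/
theorem dim_two [IsLocalRing R] [IsNoetherianRing R] {x y : R}
    (hm : maximalIdeal R = Ideal.span {x, y}) (hh : 2 ≤ (maximalIdeal R).height)
    {I : Ideal R} (hI : I.IsRadical) (htop : I ≠ ⊤) :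
    IsDomain R ∧ (I = maximalIdeal R ∨ ∃ g, I = Ideal.span {g}) := by
  have hh1 : 1 ≤ (maximalIdeal R).height := le_trans (by norm_num) hh
  by_cases hIm : I = maximalIdeal R
  · refine ⟨?_, Or.inl hIm⟩
    obtain ⟨t, ht, ht2, htP⟩ := exists_avoid hh1 (minimalPrimes R)
      (minimalPrimes.finite_of_isNoetherianRing R) (fun P hP ↦ hP.1.1) (by
        intro P hP h
        have hPp : P.IsPrime := hP.1.1
        rw [← h, Ideal.height_eq_zero_iff.2 hP] at hh1
        exact absurd hh1 (by simp))
    obtain ⟨s, hs⟩ := exists_pair hm ht ht2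
    obtain ⟨hD, hPIR⟩ := quot_dim_one hs hh
    exact isDomain_of_span_prime ht (Ideal.Quotient.isDomain_iff_prime _ |>.1 hD) htP
  · obtain ⟨t, ht, ht2, htP⟩ := exists_avoid hh1 (minimalPrimes R ∪ I.minimalPrimes)
      ((minimalPrimes.finite_of_isNoetherianRing R).union
        (I.finite_minimalPrimes_of_isNoetherianRing))
      (by
        rintro P (hP | hP)
        · exact hP.1.1
        · exact hP.1.1)
      (by
        rintro P (hP | hP) h
        · have hPp : P.IsPrime := hP.1.1
          rw [← h, Ideal.height_eq_zero_iff.2 hP] at hh1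
          exact absurd hh1 (by simp)
        · exact minimalPrime_ne_maximal hI htop hIm P hP h)
    obtain ⟨s, hs⟩ := exists_pair hm ht ht2
    obtain ⟨hD, hPIR⟩ := quot_dim_one hs hh
    refine ⟨isDomain_of_span_prime ht (Ideal.Quotient.isDomain_iff_prime _ |>.1 hD)
      (fun Q hQ ↦ htP Q (Or.inl hQ)), Or.inr ?_⟩
    obtain ⟨gb, hgb⟩ := (IsPrincipalIdealRing.principal
      (I.map (Ideal.Quotient.mk (Ideal.span {t})))).principal
    have hgb' : gb ∈ I.map (Ideal.Quotient.mk (Ideal.span {t})) := by
      rw [hgb]; exact Submodule.mem_span_singleton_self gb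
    rw [Ideal.mem_map_iff_of_surjective _ Ideal.Quotient.mk_surjective] at hgb'
    obtain ⟨g, hgI, rfl⟩ := hgb'
    refine ⟨g, le_antisymm ?_ ((Ideal.span_singleton_le_iff_mem _).2 hgI)⟩
    have htI : ∀ d, d * t ∈ I → d ∈ I := by
      intro d hd
      rw [← hI.radical, ← Ideal.sInf_minimalPrimes, Submodule.mem_sInf]
      intro (P : Ideal R) hP
      have hPp : P.IsPrime := hP.1.1
      exact (hPp.mem_or_mem (hP.1.2 hd)).resolve_right (htP P (Or.inr hP))
    refine Submodule.le_of_le_smul_of_le_jacobson_bot (I := maximalIdeal R)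
      (IsNoetherian.noetherian I) ?_ ?_
    · rw [IsLocalRing.jacobson_eq_maximalIdeal _ bot_ne_top]
    · intro f hf
      have hfm : Ideal.Quotient.mk (Ideal.span {t}) f ∈
          I.map (Ideal.Quotient.mk (Ideal.span {t})) := Ideal.mem_map_of_mem _ hf
      rw [hgb] at hfm
      obtain ⟨cb, hcb⟩ := Submodule.mem_span_singleton.1 hfm
      obtain ⟨c, rfl⟩ := Ideal.Quotient.mk_surjective cb
      rw [smul_eq_mul, ← map_mul, eq_comm, Ideal.Quotient.eq] at hcb
      obtain ⟨d, hd⟩ := Ideal.mem_span_singleton'.1 hcb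
      have hdI : d ∈ I := by
        apply htI
        rw [hd]
        exact Ideal.sub_mem _ hf (Ideal.mul_mem_left _ _ hgI)
      have hfe : f = c * g + t * d := by
        rw [mul_comm t d, hd]; ring
      rw [hfe]
      refine Submodule.add_mem_sup (Ideal.mem_span_singleton'.2 ⟨c, rfl⟩) ?_
      exact Submodule.smul_mem_smul ht hdI

theorem symbolicPower_le_span_pow [IsDomain R] {g : R}
    (hrad : (Ideal.span {g}).IsRadical) {k : ℕ} (hk : 1 ≤ k) :
    symbolicPower (Ideal.span {g}) k ≤ Ideal.span {g ^ k} := by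
  have hloc : ∀ (P : Ideal R) (_ : P ∈ (Ideal.span {g}).minimalPrimes) (j : ℕ) (f : R),
      f ∈ symbolicPower (Ideal.span {g}) j → ∃ u, u ∉ P ∧ u * f ∈ Ideal.span {g} ^ j := by
    intro P hP j f hf
    rw [symbolicPower, Submodule.mem_iInf] at hf
    have h1 := hf ⟨P, hP⟩
    have hPp : P.IsPrime := hP.1.1
    rw [Ideal.mem_comap, IsLocalization.algebraMap_mem_map_algebraMap_iff P.primeCompl] at h1
    obtain ⟨u, hu, huf⟩ := h1
    exact ⟨u, hu, huf⟩
  by_cases hg : g = 0
  · subst hg
    intro f hf
    have hbot : (⊥ : Ideal R).IsPrime := Ideal.isPrime_bot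
    have hmin : (⊥ : Ideal R) ∈ (Ideal.span {(0 : R)}).minimalPrimes := by
      rw [Ideal.span_singleton_eq_bot.2 rfl, Ideal.minimalPrimes_eq_subsingleton_self]
      rfl
    obtain ⟨u, hu, huf⟩ := hloc ⊥ hmin k f hf
    rw [Ideal.span_singleton_pow, zero_pow (by omega), Ideal.mem_span_singleton, zero_dvd_iff] at huf
    rw [zero_pow (by omega), Ideal.mem_span_singleton, zero_dvd_iff]
    exact (mul_eq_zero.1 huf).resolve_left hu
  · -- induction
    have key : ∀ j : ℕ, ∀ f, (∀ P ∈ (Ideal.span {g}).minimalPrimes, ∃ u, u ∉ P ∧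
        u * f ∈ Ideal.span {g} ^ j) → g ^ j ∣ f := by
      intro j
      induction j with
      | zero => intro f _; simp
      | succ j ih =>
        intro f hf
        obtain ⟨f', rfl⟩ : g ^ j ∣ f := by
          refine ih f ?_
          intro P hP
          obtain ⟨u, hu, huf⟩ := hf P hP
          exact ⟨u, hu, Ideal.pow_le_pow_right (Nat.le_succ j) huf⟩
        rw [pow_succ]
        refine mul_dvd_mul_left _ ?_
        rw [← Ideal.mem_span_singleton, ← hrad.radical, ← Ideal.sInf_minimalPrimes,
          Submodule.mem_sInf]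
        intro (P : Ideal R) hP
        have hPp : P.IsPrime := hP.1.1
        obtain ⟨u, hu, huf⟩ := hf P hP
        rw [Ideal.span_singleton_pow, Ideal.mem_span_singleton] at huf
        obtain ⟨h, hh⟩ := huf
        have h1 : g ^ j * (u * f') = g ^ j * (g * h) := by
          rw [show g ^ j * (u * f') = u * (g ^ j * f') by ring, hh]; ring
        have h2 := mul_left_cancel₀ (pow_ne_zero j hg) h1
        have h3 : u * f' ∈ P := by
          rw [h2]
          exact Ideal.mul_mem_right _ _ (hP.1.2 (Ideal.mem_span_singleton_self g))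
        exact (hPp.mem_or_mem h3).resolve_left hu
    intro f hf
    rw [Ideal.mem_span_singleton]
    exact key k f (fun P hP ↦ hloc P hP k f hf)

theorem symbolicPower_maximal [IsLocalRing R] (k : ℕ) :
    symbolicPower (maximalIdeal R) k ≤ maximalIdeal R ^ k := by
  intro f hf
  rw [symbolicPower, Submodule.mem_iInf] at hf
  have h1 := hf ⟨maximalIdeal R, by rw [Ideal.minimalPrimes_eq_subsingleton_self]; rfl⟩
  rw [Ideal.mem_comap,
    IsLocalization.algebraMap_mem_map_algebraMap_iff (maximalIdeal R).primeCompl] at h1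
  obtain ⟨u, hu, huf⟩ := h1
  have huu : IsUnit u := by
    by_contra h
    exact hu ((IsLocalRing.mem_maximalIdeal u).2 h)
  exact (Ideal.unit_mul_mem_iff_mem _ huu).1 huf

theorem containment_of_le_two [IsRegularLocalRing R] (n : ℕ) (hdim : ringKrullDim R = n)
    (h2 : n ≤ 2) : Containment R n := by
  classical
  have hht : (maximalIdeal R).height = (n : ℕ∞) := by
    have := IsLocalRing.maximalIdeal_height_eq_ringKrullDim (R := R)
    rw [hdim] at this
    exact_mod_cast this
  have hfr : (maximalIdeal R).spanFinrank = n := by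
    have := IsRegularLocalRing.spanFinrank_maximalIdeal (R := R)
    rw [hdim] at this
    exact_mod_cast this
  obtain ⟨s, hsc, hss⟩ := Submodule.FG.exists_span_finset_card_eq_spanFinrank
    ((maximalIdeal R).fg_of_isNoetherianRing)
  rw [hfr] at hsc
  intro I hI htop r m hr hm hrm
  by_cases h0 : n = 0
  · subst h0
    rw [Finset.card_eq_zero] at hsc
    subst hsc
    have hb : maximalIdeal R = ⊥ := by
      rw [← hss]; simp
    have hIb : I = maximalIdeal R := by
      have := IsLocalRing.le_maximalIdeal htop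
      rw [hb, le_bot_iff] at this
      rw [this, hb]
    rw [hIb]
    refine (symbolicPower_maximal m).trans ?_
    rw [hb, Ideal.bot_pow (by omega)]
    exact bot_le
  have hmain : IsDomain R ∧ (I = maximalIdeal R ∨ ∃ g, I = Ideal.span {g}) := by
    have h12 : n = 1 ∨ n = 2 := by omega
    rcases h12 with rfl | rfl
    · obtain ⟨t, rfl⟩ := Finset.card_eq_one.1 hsc
      have ht : maximalIdeal R = Ideal.span {t} := by
        rw [← hss]; simp [Ideal.span]
      obtain ⟨hD, hP⟩ := dim_one ht (by rw [hht]; simp)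
      refine ⟨hD, Or.inr ?_⟩
      obtain ⟨g, hg⟩ := (IsPrincipalIdealRing.principal I).principal
      exact ⟨g, hg⟩
    · obtain ⟨x, y, _, rfl⟩ := Finset.card_eq_two.1 hsc
      have ht : maximalIdeal R = Ideal.span {x, y} := by
        rw [← hss]; simp [Ideal.span]
      exact dim_two ht (by rw [hht]; simp) hI htop
  obtain ⟨hD, hcase⟩ := hmain
  have hrn : r ≤ r * n := Nat.le_mul_of_pos_right r (by omega)
  rcases hcase with rfl | ⟨g, rfl⟩
  · refine (symbolicPower_maximal m).trans ?_
    rw [← pow_add]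
    exact Ideal.pow_le_pow_right (by omega)
  · refine (symbolicPower_le_span_pow hI hm).trans ?_
    have hgm : g ∈ maximalIdeal R :=
      IsLocalRing.le_maximalIdeal htop (Ideal.mem_span_singleton_self g)
    rw [Ideal.span_singleton_le_iff_mem, show m = (m - r) + r by omega, pow_add]
    refine Ideal.mul_mem_mul ?_ (Ideal.pow_mem_pow (Ideal.mem_span_singleton_self g) r)
    exact Ideal.pow_le_pow_right (by omega) (Ideal.pow_mem_pow hgm (m - r))

end Pool.Agent.Lib.MP_48a29b_ag
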